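import Pool.Agent.Q228.Tri.Upper
import Pool.Agent.Cov.PNT

/-!
# The maximum size of a subset of the grid without three translated triangles is `~ n^{4/3}`
-/

set_option autoImplicit false

namespace Pool.Agent.Results.MP_98d116_co.Asymptotics

open Pool.Agent.Q228.Tri Filter Topology

/-- primes in short intervals from the prime number theorem -/
lemma exists_prime (ε : ℝ) (hε : 0 < ε) (hε1 : ε < 1) :
    ∀ᶠ x : ℝ in atTop, ∃ p : ℕ, p.Prime ∧ (1 - ε) * x < p ∧ (p : ℝ) ≤ x := by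
  have h := Pool.Agent.Cov.PNT.theta_div_tendsto
  have h1 : ∀ᶠ x : ℝ in atTop, |Chebyshev.theta x / x - 1| < ε / 4 := by
    have := (Metric.tendsto_nhds.mp h) (ε / 4) (by positivity)
    simpa [Real.dist_eq] using this
  have hlin : Tendsto (fun x : ℝ => (1 - ε) * x) atTop atTop :=
    tendsto_id.const_mul_atTop (by linarith)
  have h2 := hlin.eventually h1
  filter_upwards [h1, h2, eventually_gt_atTop 0] with x hx1 hx2 hx0
  by_contra hcon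
  push Not at hcon
  have hle : (1 - ε) * x ≤ x := by nlinarith
  have hy0 : 0 < (1 - ε) * x := mul_pos (by linarith) hx0
  have heq : Chebyshev.theta x = Chebyshev.theta ((1 - ε) * x) := by
    unfold Chebyshev.theta
    apply Finset.sum_congr _ (fun _ _ => rfl)
    ext q
    simp only [Finset.mem_filter, Finset.mem_Ioc]
    constructor
    · rintro ⟨⟨a, b⟩, c⟩
      refine ⟨⟨a, ?_⟩, c⟩
      have b' : (q : ℝ) ≤ x := (Nat.le_floor_iff hx0.le).mp b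
      rw [Nat.le_floor_iff hy0.le]
      by_contra hc
      push Not at hc
      have := hcon q c hc
      linarith
    · rintro ⟨⟨a, b⟩, c⟩
      exact ⟨⟨a, b.trans (Nat.floor_mono hle)⟩, c⟩
  rw [abs_lt] at hx1 hx2
  have a1 : (1 - ε / 4) * x < Chebyshev.theta x := by
    have : 1 - ε / 4 < Chebyshev.theta x / x := by linarith [hx1.1]
    rwa [lt_div_iff₀ hx0] at this
  have a2 : Chebyshev.theta ((1 - ε) * x) < (1 + ε / 4) * ((1 - ε) * x) := by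
    have : Chebyshev.theta ((1 - ε) * x) / ((1 - ε) * x) < 1 + ε / 4 := by linarith [hx2.2]
    rwa [div_lt_iff₀ hy0] at this
  rw [heq] at a1
  have : (1 - ε / 4) * x < (1 + ε / 4) * ((1 - ε) * x) := a1.trans a2
  nlinarith [mul_pos hε hx0, mul_pos (mul_pos hε hε) hx0]

/-- the lower bound -/
lemma lower_bound (ε : ℝ) (hε : 0 < ε) (hε1 : ε < 1) :
    ∀ᶠ n : ℕ in atTop, (1 - ε) ^ 3 * (n : ℝ) ^ (4 / 3 : ℝ) ≤ F n := by
  have hx : Tendsto (fun n : ℕ => (n : ℝ) ^ (2 / 3 : ℝ)) atTop atTop :=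
    (tendsto_rpow_atTop (by norm_num)).comp (tendsto_natCast_atTop_atTop (R := ℝ))
  have h1 := hx.eventually (exists_prime ε hε hε1)
  have h2 := hx.eventually_gt_atTop ((2 / ε) ^ 2 / (1 - ε))
  filter_upwards [h1, h2, eventually_gt_atTop 0] with n ⟨p, hp, hp1, hp2⟩ hn hn0
  have : Fact p.Prime := ⟨hp⟩
  have hn0' : (0 : ℝ) < n := by exact_mod_cast hn0
  set x := (n : ℝ) ^ (2 / 3 : ℝ) with hxdef
  have hx0 : 0 < x := Real.rpow_pos_of_pos hn0' _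
  set s := Nat.sqrt (p - 1) with hs
  have hp1' := hp.one_lt
  have hs1 : s ^ 2 + 1 ≤ p := by
    have : s * s ≤ p - 1 := Nat.sqrt_le _
    rw [pow_two]; omega
  have hs2 : p ≤ (s + 1) ^ 2 := by
    have : p - 1 < (s + 1) * (s + 1) := Nat.lt_succ_sqrt _
    rw [pow_two]; omega
  have hlow := lower p s hs1
  have hps : p * s ≤ n := by
    have h3 : ((p * s : ℕ) : ℝ) ^ 2 ≤ (n : ℝ) ^ 2 := by
      have e : (n : ℝ) ^ 2 = x ^ 3 := by
        rw [hxdef, ← Real.rpow_natCast, ← Real.rpow_natCast, ← Real.rpow_mul hn0'.le]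
        norm_num
      rw [e]
      have h4 : (s : ℝ) ^ 2 ≤ p := by
        have : s ^ 2 ≤ p := by omega
        exact_mod_cast this
      calc ((p * s : ℕ) : ℝ) ^ 2 = (p : ℝ) ^ 2 * (s : ℝ) ^ 2 := by push_cast; ring
        _ ≤ (p : ℝ) ^ 2 * p := mul_le_mul_of_nonneg_left h4 (by positivity)
        _ = (p : ℝ) ^ 3 := by ring
        _ ≤ x ^ 3 := pow_le_pow_left₀ (Nat.cast_nonneg _) hp2 3
    have := (pow_le_pow_iff_left₀ (Nat.cast_nonneg _) (Nat.cast_nonneg _) two_ne_zero).mp h3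
    exact_mod_cast this
  have hF : s ^ 2 * (p + 1) ≤ F n := hlow.trans (F_mono hps)
  have hF' : (s : ℝ) ^ 2 * (p + 1) ≤ F n := by exact_mod_cast hF
  refine le_trans ?_ hF'
  -- `s² ≥ (1 - ε) p`
  set q := Real.sqrt p with hq
  have hqq : q * q = p := Real.mul_self_sqrt (Nat.cast_nonneg _)
  have hq0 : 0 ≤ q := Real.sqrt_nonneg _
  have hqs : q ≤ s + 1 := by
    rw [hq, Real.sqrt_le_left (by positivity)]
    exact_mod_cast hs2
  have hqbig : 2 / ε ≤ q := by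
    apply Real.le_sqrt_of_sq_le
    have h1ε : 0 < 1 - ε := by linarith
    rw [div_lt_iff₀ h1ε] at hn
    nlinarith
  have h2q : 2 ≤ ε * q := by rwa [div_le_iff₀' hε] at hqbig
  have hq1 : 1 ≤ q := by nlinarith
  have hs3 : (1 - ε) * (p : ℝ) ≤ (s : ℝ) ^ 2 := by
    have h5 : (q - 1) ^ 2 ≤ (s : ℝ) ^ 2 := pow_le_pow_left₀ (by linarith) (by linarith) 2
    refine le_trans ?_ h5
    rw [← hqq]
    nlinarith [mul_le_mul_of_nonneg_right h2q hq0]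
  have e2 : (n : ℝ) ^ (4 / 3 : ℝ) = x ^ 2 := by
    rw [hxdef, ← Real.rpow_natCast, ← Real.rpow_mul hn0'.le]
    norm_num
  rw [e2]
  have h1ε : 0 ≤ 1 - ε := by linarith
  have hpx : (1 - ε) * x ≤ p := hp1.le
  clear_value x s q
  have hp0 : (0 : ℝ) ≤ p := Nat.cast_nonneg _
  have f0 : 0 ≤ (1 - ε) * x := mul_nonneg h1ε hx0.le
  have f1 : ((1 - ε) * x) ^ 2 ≤ (p : ℝ) ^ 2 := pow_le_pow_left₀ f0 hpx 2
  have f2 : (1 - ε) * ((1 - ε) * x) ^ 2 ≤ (1 - ε) * (p : ℝ) ^ 2 :=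
    mul_le_mul_of_nonneg_left f1 h1ε
  have f3 : ((1 - ε) * p) * p ≤ (s : ℝ) ^ 2 * p := mul_le_mul_of_nonneg_right hs3 hp0
  have f4 : (0 : ℝ) ≤ (s : ℝ) ^ 2 := sq_nonneg _
  have f5 : (1 - ε) ^ 3 * x ^ 2 = (1 - ε) * ((1 - ε) * x) ^ 2 := by ring
  have f6 : (1 - ε) * (p : ℝ) ^ 2 = ((1 - ε) * p) * p := by ring
  have f7 : (s : ℝ) ^ 2 * (p + 1) = (s : ℝ) ^ 2 * p + (s : ℝ) ^ 2 := by ring
  linarith

/-- the upper bound -/
lemma upper_bound (ε : ℝ) (hε : 0 < ε) (hε1 : ε < 1) :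
    ∀ᶠ n : ℕ in atTop, (F n : ℝ) ≤ (1 + ε) * (n : ℝ) ^ (4 / 3 : ℝ) := by
  -- `y = n^{1/6}`, `u = ⌈n^{5/6}⌉`
  have hy : Tendsto (fun n : ℕ => (n : ℝ) ^ (1 / 6 : ℝ)) atTop atTop :=
    (tendsto_rpow_atTop (by norm_num)).comp (tendsto_natCast_atTop_atTop (R := ℝ))
  -- `δ_n = 2 / y → 0`; everything is a polynomial in `1 / y`
  have hz : Tendsto (fun n : ℕ => ((n : ℝ) ^ (1 / 6 : ℝ))⁻¹) atTop (𝓝 0) :=
    tendsto_inv_atTop_zero.comp hy
  have hγ : Tendsto (fun n : ℕ => (1 + 2 * ((n : ℝ) ^ (1 / 6 : ℝ))⁻¹) ^ 2 *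
      (1 + ((n : ℝ) ^ (1 / 6 : ℝ))⁻¹ ^ 4) +
      2 * (1 + 2 * ((n : ℝ) ^ (1 / 6 : ℝ))⁻¹) ^ 4 * ((n : ℝ) ^ (1 / 6 : ℝ))⁻¹ ^ 2) atTop
      (𝓝 ((1 + 2 * 0) ^ 2 * (1 + 0 ^ 4) + 2 * (1 + 2 * 0) ^ 4 * 0 ^ 2)) := by
    have a1 := (hz.const_mul 2).const_add 1
    exact ((a1.pow 2).mul ((hz.pow 4).const_add 1)).add (((a1.pow 4).const_mul 2).mul (hz.pow 2))
  have hγ' := hγ.eventually_lt_const (show ((1 + 2 * 0) ^ 2 * (1 + 0 ^ 4) +
    2 * (1 + 2 * 0) ^ 4 * 0 ^ 2 : ℝ) < 1 + ε by norm_num; exact hε)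
  filter_upwards [hγ', eventually_gt_atTop 0, hy.eventually_ge_atTop 1] with n hn hn0 hy1
  have hn0' : (0 : ℝ) < n := by exact_mod_cast hn0
  set y := (n : ℝ) ^ (1 / 6 : ℝ) with hydef
  have hy0 : 0 < y := by linarith
  have en : (n : ℝ) = y ^ 6 := by
    rw [hydef, ← Real.rpow_natCast, ← Real.rpow_mul hn0'.le]; norm_num
  have e43 : (n : ℝ) ^ (4 / 3 : ℝ) = y ^ 8 := by
    rw [hydef, ← Real.rpow_natCast, ← Real.rpow_mul hn0'.le]; norm_num
  rw [e43]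
  by_contra hcon
  push Not at hcon
  set u := ⌈y ^ 5⌉₊ with hu
  have hu1 : y ^ 5 ≤ u := Nat.le_ceil _
  have hu2 : (u : ℝ) ≤ 2 * y ^ 5 := by
    have := Nat.ceil_lt_add_one (show 0 ≤ y ^ 5 by positivity)
    have h5 : 1 ≤ y ^ 5 := one_le_pow₀ hy1
    linarith
  have hu0 : 0 < u := by
    have : 0 < y ^ 5 := by positivity
    exact Nat.ceil_pos.mpr this
  have hup := upper n u hu0
  set a : ℝ := ((F n : ℕ) : ℝ) with ha
  set z := y⁻¹ with hz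
  have hyz : y * z = 1 := mul_inv_cancel₀ hy0.ne'
  have hz0 : 0 < z := by positivity
  have hP1 : (n : ℝ) + u ≤ y ^ 6 * (1 + 2 * z) := by
    rw [en]
    have : y ^ 6 * (1 + 2 * z) = y ^ 6 + 2 * y ^ 5 := by linear_combination 2 * y ^ 5 * hyz
    rw [this]; linarith
  have hP2 : ((n : ℝ) + u) ^ 2 ≤ y ^ 12 * (1 + 2 * z) ^ 2 := by
    calc ((n : ℝ) + u) ^ 2 ≤ (y ^ 6 * (1 + 2 * z)) ^ 2 :=
          pow_le_pow_left₀ (by positivity) hP1 2
      _ = _ := by ring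
  have hP4 : 2 * ((n : ℝ) + u) ^ 4 / (u : ℝ) ^ 2 ≤ 2 * y ^ 14 * (1 + 2 * z) ^ 4 := by
    have hu' : 0 < (u : ℝ) := by exact_mod_cast hu0
    rw [div_le_iff₀ (by positivity)]
    calc 2 * ((n : ℝ) + u) ^ 4 ≤ 2 * (y ^ 6 * (1 + 2 * z)) ^ 4 :=
          mul_le_mul_of_nonneg_left (pow_le_pow_left₀ (by positivity) hP1 4) (by norm_num)
      _ = (2 * y ^ 14 * (1 + 2 * z) ^ 4) * (y ^ 5) ^ 2 := by ring
      _ ≤ (2 * y ^ 14 * (1 + 2 * z) ^ 4) * (u : ℝ) ^ 2 :=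
          mul_le_mul_of_nonneg_left (pow_le_pow_left₀ (by positivity) hu1 2) (by positivity)
  -- `q = √a`, `q > y⁴`
  set q := Real.sqrt a with hq
  have ha0 : 0 ≤ a := Nat.cast_nonneg _
  have hqq : q * q = a := Real.mul_self_sqrt ha0
  have hq0 : 0 ≤ q := Real.sqrt_nonneg _
  have hq4 : y ^ 4 ≤ q := by
    apply Real.le_sqrt_of_sq_le
    have : 0 < y ^ 8 := by positivity
    nlinarith
  -- a² ≤ y¹² γ q
  have hmain : a ^ 2 ≤ y ^ 12 * q * ((1 + 2 * z) ^ 2 * (1 + z ^ 4) +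
      2 * (1 + 2 * z) ^ 4 * z ^ 2) := by
    have h1 : q + 1 ≤ q * (1 + z ^ 4) := by
      have : y ^ 4 * z ^ 4 = 1 := by rw [← mul_pow, hyz, one_pow]
      nlinarith [mul_le_mul_of_nonneg_right hq4 (show 0 ≤ z ^ 4 by positivity)]
    have h2 : 2 * y ^ 14 * (1 + 2 * z) ^ 4 ≤ y ^ 12 * q * (2 * (1 + 2 * z) ^ 4 * z ^ 2) := by
      have e : y ^ 2 ≤ q * z ^ 2 := by
        have : y ^ 2 = y ^ 4 * z ^ 2 := by
          have : y ^ 4 * z ^ 2 = y ^ 2 * (y * z) ^ 2 := by ring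
          rw [this, hyz]; ring
        rw [this]
        exact mul_le_mul_of_nonneg_right hq4 (by positivity)
      calc 2 * y ^ 14 * (1 + 2 * z) ^ 4 = (2 * y ^ 12 * (1 + 2 * z) ^ 4) * y ^ 2 := by ring
        _ ≤ (2 * y ^ 12 * (1 + 2 * z) ^ 4) * (q * z ^ 2) :=
            mul_le_mul_of_nonneg_left e (by positivity)
        _ = _ := by ring
    calc a ^ 2 ≤ ((n : ℝ) + u) ^ 2 * (q + 1) + 2 * ((n : ℝ) + u) ^ 4 / (u : ℝ) ^ 2 := hup
      _ ≤ y ^ 12 * (1 + 2 * z) ^ 2 * (q * (1 + z ^ 4)) + 2 * y ^ 14 * (1 + 2 * z) ^ 4 := by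
          apply add_le_add _ hP4
          exact mul_le_mul hP2 h1 (by positivity) (by positivity)
      _ ≤ y ^ 12 * (1 + 2 * z) ^ 2 * (q * (1 + z ^ 4)) +
          y ^ 12 * q * (2 * (1 + 2 * z) ^ 4 * z ^ 2) := by linarith
      _ = _ := by ring
  have hqpos : 0 < q := lt_of_lt_of_le (by positivity) hq4
  have h3 : a ^ 2 < y ^ 12 * q * (1 + ε) :=
    lt_of_le_of_lt hmain (mul_lt_mul_of_pos_left hn (by positivity))
  -- but `a² = q · q³ ≥ q · (y⁴)... `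
  have h4 : q * ((1 + ε) * y ^ 12) ≤ a ^ 2 := by
    have e : a ^ 2 = q * (q * a) := by rw [← hqq]; ring
    rw [e]
    apply mul_le_mul_of_nonneg_left _ hq0
    calc (1 + ε) * y ^ 12 = y ^ 4 * ((1 + ε) * y ^ 8) := by ring
      _ ≤ q * a := mul_le_mul hq4 hcon.le (by positivity) hq0
  linarith

/-- `F(n) ~ n^{4/3}` -/
theorem result : Tendsto (fun n : ℕ => (F n : ℝ) / (n : ℝ) ^ (4 / 3 : ℝ)) atTop (𝓝 1) := by
  rw [tendsto_order]
  constructor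
  · intro c hc
    -- choose ε with (1 - ε)^3 > c
    obtain ⟨ε, hε, hε1, hcε⟩ : ∃ ε : ℝ, 0 < ε ∧ ε < 1 ∧ c < (1 - ε) ^ 3 := by
      refine ⟨min (1 / 2) ((1 - c) / 4), lt_min (by norm_num) (by linarith), ?_, ?_⟩
      · exact lt_of_le_of_lt (min_le_left _ _) (by norm_num)
      · set ε := min (1 / 2 : ℝ) ((1 - c) / 4)
        have h1 : ε ≤ (1 - c) / 4 := min_le_right _ _
        have h2 : 0 < ε := lt_min (by norm_num) (by linarith)
        have h3 : ε ≤ 1 / 2 := min_le_left _ _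
        nlinarith [mul_pos h2 h2, mul_nonneg (mul_pos h2 h2).le (sub_nonneg.mpr h3)]
    filter_upwards [lower_bound ε hε hε1, eventually_gt_atTop 0] with n hn hn0
    have hn0' : (0 : ℝ) < n := by exact_mod_cast hn0
    rw [lt_div_iff₀ (Real.rpow_pos_of_pos hn0' _)]
    exact lt_of_lt_of_le (mul_lt_mul_of_pos_right hcε (Real.rpow_pos_of_pos hn0' _)) hn
  · intro c hc
    set ε := min (1 / 2 : ℝ) ((c - 1) / 2) with hεdef
    have h2 : 0 < ε := lt_min (by norm_num) (by linarith)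
    have h3 : ε < 1 := lt_of_le_of_lt (min_le_left _ _) (by norm_num)
    have h4 : ε ≤ (c - 1) / 2 := min_le_right _ _
    filter_upwards [upper_bound ε h2 h3, eventually_gt_atTop 0] with n hn hn0
    have hn0' : (0 : ℝ) < n := by exact_mod_cast hn0
    rw [div_lt_iff₀ (Real.rpow_pos_of_pos hn0' _)]
    exact lt_of_le_of_lt hn (mul_lt_mul_of_pos_right (by linarith)
      (Real.rpow_pos_of_pos hn0' _))

end Pool.Agent.Results.MP_98d116_co.Asymptotics
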